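import Pool.Agent.Y278.Rot.HilbAmen

/-!
# Banach-Mazur rotation problem: amenability of the action on the unit sphere

Proof outline (files `Pool/Agent/Y278/Rot/*`).

1. `HessMain.lean`: the Hessians `A x` of the squared norm are an equivariant field of uniformly
   equivalent inner products (see the result HilbertianHessian).
2. `Coam.lean`: the functions `x -> A x v w` are bounded, continuous and uniformly continuous along
   the isometry group; their invariant mean is an invariant inner product, so the norm is a multiple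
   of the norm it defines.
3. `Avg.lean`, `HilbAmen.lean`: conversely, on a Hilbert space take the limit, along the finite
   dimensional subspaces, of the averages over their spheres; any isometry agrees on given finitely
   many vectors with one of finite type, which does not change the averages.
-/

set_option autoImplicit false

namespace Pool.Agent.Results.MP_cc72b1_an.AmenableSphere

/-- Functions which, on the unit sphere, are bounded, continuous, and uniformly continuous along
the isometry group with the topology of pointwise convergence. -/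
def UC (E : Type) [NormedAddCommGroup E] [NormedSpace ℝ E] (F : E → ℝ) : Prop :=
  (∃ C : ℝ, ∀ x, ‖x‖ = 1 → |F x| ≤ C) ∧ ContinuousOn F {x | ‖x‖ = 1} ∧
  ∀ ε : ℝ, 0 < ε → ∃ (m : ℕ) (e : Fin m → E) (κ : ℝ), 0 < κ ∧ ∀ T : E ≃ₗᵢ[ℝ] E,
    (∀ i, ‖T (e i) - e i‖ ≤ κ) → ∀ x, ‖x‖ = 1 → |F (T x) - F x| ≤ ε

/-- There is an invariant mean on these functions. -/
def SphereMean (E : Type) [NormedAddCommGroup E] [NormedSpace ℝ E] : Prop :=
  ∃ M : (E → ℝ) → ℝ,
    (∀ F F', UC E F → UC E F' → M (fun x => F x + F' x) = M F + M F') ∧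
    (∀ (r : ℝ) F, UC E F → M (fun x => r * F x) = r * M F) ∧
    (∀ F, UC E F → (∀ x, ‖x‖ = 1 → 0 ≤ F x) → 0 ≤ M F) ∧
    M (fun _ => 1) = 1 ∧
    ∀ (T : E ≃ₗᵢ[ℝ] E) F, UC E F → M (fun x => F (T x)) = M F

theorem result :
    ∀ (E : Type) [NormedAddCommGroup E] [NormedSpace ℝ E] [CompleteSpace E]
      [TopologicalSpace.SeparableSpace E] [Nontrivial E] (H : Type) [NormedAddCommGroup H]
      [InnerProductSpace ℝ H], Nonempty (E ≃L[ℝ] H) →
      (∀ x y : E, ‖x‖ = 1 → ‖y‖ = 1 → ∃ T : E ≃ₗᵢ[ℝ] E, T x = y) →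
      (SphereMean E ↔
        ∃ (K : Type) (_ : NormedAddCommGroup K) (_ : InnerProductSpace ℝ K)
          (_ : CompleteSpace K), Nonempty (E ≃ₗᵢ[ℝ] K)) := by
  intro E _ _ _ _ _ H _ _ hΦ hG
  obtain ⟨Φ⟩ := hΦ
  constructor
  · intro hM
    have key := Pool.Agent.Y278.Rot.isometric_of_sphereAmenable Φ hG hM
    exact ⟨E, inferInstance, InnerProductSpace.ofNorm ℝ key, inferInstance,
      ⟨LinearIsometryEquiv.refl ℝ E⟩⟩
  · rintro ⟨K, i1, i2, i3, ⟨J⟩⟩
    have key : ∀ x y : E,
        ‖x + y‖ * ‖x + y‖ + ‖x - y‖ * ‖x - y‖ = 2 * (‖x‖ * ‖x‖ + ‖y‖ * ‖y‖) := by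
      intro x y
      have h := parallelogram_law_with_norm ℝ (J x) (J y)
      rw [← map_add, ← map_sub, J.norm_map, J.norm_map, J.norm_map, J.norm_map] at h
      linarith
    let _ : InnerProductSpace ℝ E := InnerProductSpace.ofNorm ℝ key
    exact Pool.Agent.Y278.Rot.sphereAmenable_of_hilbert (H := E)

end Pool.Agent.Results.MP_cc72b1_an.AmenableSphere
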