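import Pool.Agent.Y278.Rot.HessMain

/-!
# Banach-Mazur rotation problem: the Hessian field of a Hilbertian transitive norm

Proof outline (files `Pool/Agent/Y278/Rot/*`).

1. `OneDim.lean` to `Main.lean`: a separable transitive norm has at every point second order
   expansions along a dense subspace of directions.
2. `Conv2.lean`, `Smooth2.lean`: if `E` is isomorphic to a Hilbert space, the supremum of the
   Hilbert norms of `T x`, `T` an isometry of `E`, and the largest invariant norm below the Hilbert
   norm are multiples of the norm; hence the norm is 2-convex and 2-smooth.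
3. `Hess.lean`: by 2-smoothness the quotients are equicontinuous in the direction, so the
   expansions hold in all directions, with a bounded form.
4. `HessCont.lean`, `HessMain.lean`: a Baire category argument (starting file `H305R3/Rot/Near`)
   moves `x` to nearby points by isometries which almost fix the direction; this gives continuity.
-/

set_option autoImplicit false

namespace Pool.Agent.Results.MP_cc72b1_an.HilbertianHessian

open Filter Topology Asymptotics

theorem result :
    ∀ (E : Type) [NormedAddCommGroup E] [NormedSpace ℝ E] [CompleteSpace E]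
      [TopologicalSpace.SeparableSpace E] (H : Type) [NormedAddCommGroup H]
      [InnerProductSpace ℝ H], Nonempty (E ≃L[ℝ] H) →
      (∀ x y : E, ‖x‖ = 1 → ‖y‖ = 1 → ∃ T : E ≃ₗᵢ[ℝ] E, T x = y) →
      ∃ (c C : ℝ) (f : E → E →L[ℝ] ℝ) (A : E → E →L[ℝ] E →L[ℝ] ℝ), 0 < c ∧
        (∀ x, ‖x‖ = 1 → (∀ v w, A x v w = A x w v) ∧
          (∀ w, c * ‖w‖ ^ 2 ≤ A x w w ∧ A x w w ≤ C * ‖w‖ ^ 2) ∧
          (∀ w, (fun t : ℝ => ‖x + t • w‖ ^ 2 - 1 - 2 * t * f x w - t ^ 2 * A x w w)
            =o[𝓝 0] fun t : ℝ => t ^ 2) ∧
          ∀ (T : E ≃ₗᵢ[ℝ] E) (v w : E), A (T x) (T v) (T w) = A x v w) ∧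
        ∀ v w, ContinuousOn (fun x => A x v w) {x | ‖x‖ = 1} := by
  intro E _ _ _ _ H _ _ hΦ hG
  obtain ⟨Φ⟩ := hΦ
  exact Pool.Agent.Y278.Rot.hessian_field Φ hG

end Pool.Agent.Results.MP_cc72b1_an.HilbertianHessian
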