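import Pool.Agent.Y278.Rot.Low

/-!
# Banach-Mazur rotation problem: quadratic lower bounds at every point

Proof outline (files `Pool/Agent/Y278/Rot/*`).

1. `OneDim.lean` to `Main.lean`, applied to the dual space: near any point of the dual space there
   is a functional `Z` at which the dual norm has second order expansions along a given sequence
   of directions `g n` (Alexandrov's theorem on the lines, and a random choice of `Z`); take a
   separating sequence.
2. `Rotund.lean`: as `E` is reflexive, `Z` attains its norm at a unit vector `x1`, and the inequality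
   `(Z + s (g n)) (x1 + w) <= |Z + s (g n)| |x1 + w|` with `s` proportional to the component of `w`
   gives a quadratic lower bound for `|x1 + w|`.
3. `Low.lean`: a weighted sum over `n` is a bounded form, which is positive off the line of `x1`;
   an isometry carries `x1` to an arbitrary point of the sphere.
-/

set_option autoImplicit false

namespace Pool.Agent.Results.MP_cc72b1_an.SecondOrderRotund

theorem result :
    ∀ (E : Type) [NormedAddCommGroup E] [NormedSpace ℝ E] [CompleteSpace E]
      [TopologicalSpace.SeparableSpace E],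
      Function.Surjective (NormedSpace.inclusionInDoubleDual ℝ E) →
      (∀ x y : E, ‖x‖ = 1 → ‖y‖ = 1 → ∃ T : E ≃ₗᵢ[ℝ] E, T x = y) →
      ∀ x : E, ‖x‖ = 1 →
      ∃ (f : E →L[ℝ] ℝ) (B : E →L[ℝ] E →L[ℝ] ℝ), ‖f‖ = 1 ∧ f x = 1 ∧
        (∀ v w, B v w = B w v) ∧ (∀ w, (∀ c : ℝ, w ≠ c • x) → 0 < B w w) ∧
        ∀ w, ‖w‖ ≤ 1 → 1 + f w + B w w ≤ ‖x + w‖ := by
  intro E _ _ _ _ hr hG x hx
  exact Pool.Agent.Y278.Rot.low_form hr hG hx

end Pool.Agent.Results.MP_cc72b1_an.SecondOrderRotund
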