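import Pool.Agent.Y278.Rot.Main

/-!
# Banach-Mazur rotation problem: second order Taylor expansions of a transitive norm

Proof outline (files `Pool/Agent/Y278/Rot/*`).

1. `OneDim.lean`, `TwoDim.lean`: a convex function on the line has a second order Taylor expansion
   at almost every point; a convex function on the plane has, at almost every point, second
   directional derivatives which satisfy the parallelogram law.
2. `Prod.lean`, `Good.lean`: for a countable family of directions in a Banach space, a random
   element `z0 + sum_k s_k c_k v_k` (with independent uniform `s_k`) has almost surely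
   second order expansions of the norm in all these directions and satisfies all these
   parallelogram laws.
3. `Ext.lean`, `Span.lean`, `Form.lean`, `Par.lean`: the expansions pass from the rational span to
   the real span (the quotients are controlled by a seminorm) and define a bilinear form.
4. `Unif.lean`: the expansion is uniform on finite dimensional spaces of directions.
5. `Main.lean`: an isometry carries the good point to an arbitrary point of the sphere.
-/

set_option autoImplicit false

namespace Pool.Agent.Results.MP_cc72b1_an.SecondOrderTaylor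

open Filter Topology Asymptotics

theorem result :
    ∀ (E : Type) [NormedAddCommGroup E] [NormedSpace ℝ E] [CompleteSpace E]
      [TopologicalSpace.SeparableSpace E],
      (∀ x y : E, ‖x‖ = 1 → ‖y‖ = 1 → ∃ T : E ≃ₗᵢ[ℝ] E, T x = y) →
      ∀ x : E, ‖x‖ = 1 → ∀ Y : Set E, Y.Countable →
      ∃ (T : E ≃ₗᵢ[ℝ] E) (f : E →L[ℝ] ℝ) (V : Submodule ℝ E) (B : V →ₗ[ℝ] V →ₗ[ℝ] ℝ),
        ‖f‖ = 1 ∧ f x = 1 ∧ Dense (V : Set E) ∧ (∀ y ∈ Y, T y ∈ V) ∧
        (∀ v w, B v w = B w v) ∧ (∀ v, 0 ≤ B v v) ∧
        ∀ F : Submodule ℝ V, FiniteDimensional ℝ F →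
          (fun w : F => ‖x + ((w : V) : E)‖ - 1 - f ((w : V) : E) - B (w : V) (w : V))
            =o[𝓝 0] fun w : F => ‖w‖ ^ 2 := by
  intro E _ _ _ _ hG x hx Y hY
  -- a sequence enumerating a dense set and `Y`
  have hc : (Y ∪ Set.range (TopologicalSpace.denseSeq E)).Countable :=
    hY.union (Set.countable_range _)
  obtain ⟨y, hy⟩ := hc.exists_eq_range ⟨_, Or.inr ⟨0, rfl⟩⟩
  obtain ⟨T, f, V, B, hN, hyV, hE⟩ := Pool.Agent.Y278.Rot.transitive_expand hG y hx
  refine ⟨T, f, V, B, hN.1, by rw [hN.2, hx], ?_, fun u hu => ?_, hE.1, fun v =>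
    Pool.Agent.Y278.Rot.Lm_nonneg hN (hE.2 v), fun F hF => ?_⟩
  · have h1 : DenseRange (fun n => T (TopologicalSpace.denseSeq E n)) :=
      T.toHomeomorph.surjective.denseRange.comp (TopologicalSpace.denseRange_denseSeq E)
        T.continuous
    refine h1.mono ?_
    rintro _ ⟨n, rfl⟩
    have : TopologicalSpace.denseSeq E n ∈ Set.range y := by
      rw [← hy]; exact Or.inr ⟨n, rfl⟩
    obtain ⟨m, hm⟩ := this
    show T (TopologicalSpace.denseSeq E n) ∈ V
    rw [← hm]
    exact hyV m
  · have : u ∈ Set.range y := by
      rw [← hy]; exact Or.inl hu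
    obtain ⟨m, hm⟩ := this
    rw [← hm]
    exact hyV m
  · have h := Pool.Agent.Y278.Rot.taylor_fd hN (V.subtype.comp F.subtype)
      (fun w => B (w : V) (w : V)) (fun w => hE.2 (w : V))
    rw [hx] at h
    exact h

end Pool.Agent.Results.MP_cc72b1_an.SecondOrderTaylor
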